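import Pool.Agent.TH158.FM.Stm

/-!
The three Laplace sums of `d(n)²`.
-/

set_option autoImplicit false

namespace Pool.Agent.TH158.FM

namespace Lap

/-- the tangent line at `u₀` -/
theorem tangent {u u0 : ℝ} (hu : 3 ≤ u) (hu0 : 3 ≤ u0) :
    u ^ 4 ≤ u0 ^ 4 - 4 * u0 ^ 3 + 4 * u0 ^ 3 * Real.exp (u - u0) := by
  have hder : ∀ t : ℝ, HasDerivAt (fun t : ℝ => 4 * u0 ^ 3 * Real.exp t - (u0 + t) ^ 4)
      (4 * u0 ^ 3 * Real.exp t - 4 * (u0 + t) ^ 3) t := by
    intro t
    have h1 := ((Real.hasDerivAt_exp t).const_mul (4 * u0 ^ 3))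
    have h2 : HasDerivAt (fun t : ℝ => (u0 + t) ^ 4) (4 * (u0 + t) ^ 3) t := by
      have h := ((hasDerivAt_id' t).const_add u0).pow 4
      refine h.congr_deriv ?_
      push_cast
      ring
    exact h1.sub h2
  have hcont : Continuous (fun t : ℝ => 4 * u0 ^ 3 * Real.exp t - (u0 + t) ^ 4) := by fun_prop
  rcases lt_trichotomy u u0 with h | h | h
  · obtain ⟨c, ⟨hc1, hc2⟩, hc⟩ := exists_hasDerivAt_eq_slope
      (fun t : ℝ => 4 * u0 ^ 3 * Real.exp t - (u0 + t) ^ 4)
      (fun t : ℝ => 4 * u0 ^ 3 * Real.exp t - 4 * (u0 + t) ^ 3)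
      (show u - u0 < 0 by linarith) hcont.continuousOn (fun t _ => hder t)
    have h1 : 0 < 0 - (u - u0) := by linarith
    rw [eq_div_iff h1.ne'] at hc
    simp only [Real.exp_zero, add_zero, add_sub_cancel] at hc
    -- derivative at `c` is nonpositive
    have hw : 3 ≤ u0 + c := by linarith
    have h2 : u0 ^ 3 * Real.exp c ≤ (u0 + c) ^ 3 := by
      have h3 : u0 ≤ (u0 + c) * Real.exp (-c / 3) := by
        have h4 := Real.add_one_le_exp (-c / 3)
        have h5 : (u0 + c) * (-c / 3 + 1) ≤ (u0 + c) * Real.exp (-c / 3) :=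
          mul_le_mul_of_nonneg_left h4 (by linarith)
        nlinarith
      have h4 : u0 ^ 3 ≤ ((u0 + c) * Real.exp (-c / 3)) ^ 3 :=
        pow_le_pow_left₀ (by linarith) h3 3
      have h5 : ((u0 + c) * Real.exp (-c / 3)) ^ 3 * Real.exp c = (u0 + c) ^ 3 := by
        rw [mul_pow, ← Real.exp_nat_mul, mul_assoc, ← Real.exp_add]
        have : ((3 : ℕ) : ℝ) * (-c / 3) + c = 0 := by push_cast; ring
        rw [this, Real.exp_zero, mul_one]
      rw [← h5]
      exact mul_le_mul_of_nonneg_right h4 (Real.exp_pos c).le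
    have h6 : (4 * u0 ^ 3 * Real.exp c - 4 * (u0 + c) ^ 3) * (0 - (u - u0)) ≤ 0 := by
      apply mul_nonpos_of_nonpos_of_nonneg _ h1.le
      linarith
    rw [hc] at h6
    linarith
  · subst h
    simp
  · obtain ⟨c, ⟨hc1, hc2⟩, hc⟩ := exists_hasDerivAt_eq_slope
      (fun t : ℝ => 4 * u0 ^ 3 * Real.exp t - (u0 + t) ^ 4)
      (fun t : ℝ => 4 * u0 ^ 3 * Real.exp t - 4 * (u0 + t) ^ 3)
      (show 0 < u - u0 by linarith) hcont.continuousOn (fun t _ => hder t)
    have h1 : 0 < u - u0 - 0 := by linarith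
    rw [eq_div_iff h1.ne'] at hc
    simp only [Real.exp_zero, add_zero, add_sub_cancel] at hc
    have h2 : (u0 + c) ^ 3 ≤ u0 ^ 3 * Real.exp c := by
      have h3 : u0 + c ≤ u0 * Real.exp (c / 3) := by
        have h4 := Real.add_one_le_exp (c / 3)
        have h5 : u0 * (c / 3 + 1) ≤ u0 * Real.exp (c / 3) :=
          mul_le_mul_of_nonneg_left h4 (by linarith)
        nlinarith
      have h4 : (u0 + c) ^ 3 ≤ (u0 * Real.exp (c / 3)) ^ 3 :=
        pow_le_pow_left₀ (by linarith) h3 3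
      have h5 : (u0 * Real.exp (c / 3)) ^ 3 = u0 ^ 3 * Real.exp c := by
        rw [mul_pow, ← Real.exp_nat_mul]
        have : ((3 : ℕ) : ℝ) * (c / 3) = c := by push_cast; ring
        rw [this]
      rw [← h5]
      exact h4
    have h6 : 0 ≤ (4 * u0 ^ 3 * Real.exp c - 4 * (u0 + c) ^ 3) * (u - u0 - 0) := by
      apply mul_nonneg _ h1.le
      linarith
    rw [hc] at h6
    linarith

/-- partial summation against an antitone weight -/
theorem abel (c f : ℕ → ℝ) (A B : ℝ) (hA : 0 ≤ A)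
    (hc : ∀ k : ℕ, 1 ≤ k → ∑ n ∈ Finset.Icc 1 k, c n ≤ A + B * k)
    (hf0 : ∀ n, 0 ≤ f n) (hf : ∀ n : ℕ, f (n + 1) ≤ f n) (M : ℕ) :
    ∑ n ∈ Finset.Icc 1 M, c n * f n ≤ A * f 1 + B * ∑ n ∈ Finset.Icc 1 M, f n := by
  rcases Nat.eq_zero_or_pos M with rfl | hM
  · simp only [Finset.Icc_eq_empty_of_lt Nat.zero_lt_one, Finset.sum_empty, mul_zero, add_zero]
    exact mul_nonneg hA (hf0 1)
  · have key : (∑ n ∈ Finset.Icc 1 M, c n * f n) - (∑ n ∈ Finset.Icc 1 M, c n) * f M ≤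
        A * f 1 + B * (∑ n ∈ Finset.Icc 1 M, f n) - (A + B * M) * f M := by
      induction M, hM using Nat.le_induction with
      | base =>
        simp only [Finset.Icc_self, Finset.sum_singleton, Nat.cast_one]
        linarith
      | succ M hM ih =>
        rw [Finset.sum_Icc_succ_top (by omega), Finset.sum_Icc_succ_top (by omega),
          Finset.sum_Icc_succ_top (by omega)]
        have h1 := hc M hM
        have h2 : 0 ≤ f M - f (M + 1) := sub_nonneg.2 (hf M)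
        have h3 := mul_le_mul_of_nonneg_right h1 h2
        push_cast
        nlinarith
    have h4 := mul_le_mul_of_nonneg_right (hc M hM) (hf0 M)
    linarith

/-- the general weight -/
theorem weight (c : ℕ → ℝ) (A B η : ℝ) (hA : 0 ≤ A) (hB : 0 ≤ B) (hη : 0 < η)
    (hc : ∀ k : ℕ, 1 ≤ k → ∑ n ∈ Finset.Icc 1 k, c n ≤ A + B * k)
    (γ Γ : ℝ → ℝ) (K L : ℝ) (hγ0 : ∀ z, 0 ≤ z → 0 ≤ γ z)
    (hγ : ∀ a b, 0 ≤ a → a ≤ b → γ b ≤ γ a) (hL : γ 0 = L) (hΓ0 : Γ 0 = 0)
    (hK : ∀ z, 0 ≤ z → Γ z ≤ K)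
    (hΓ : ∀ a b, 0 ≤ a → a ≤ b → (b - a) * γ b ≤ Γ b - Γ a) (M : ℕ) :
    ∑ n ∈ Finset.Icc 1 M, c n * γ (η * n) ≤ A * L + B * (K / η) := by
  have h1 := abel c (fun n => γ (η * n)) A B hA hc (fun n => hγ0 _ (by positivity))
    (fun n => hγ _ _ (by positivity) (mul_le_mul_of_nonneg_left (by push_cast; linarith) hη.le)) M
  have h2 : ∑ n ∈ Finset.Icc 1 M, γ (η * n) ≤ Γ (η * M) / η := by
    induction M with
    | zero => simp [hΓ0]
    | succ M ih =>
      rw [Finset.sum_Icc_succ_top (by omega)]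
      have h3 := hΓ (η * M) (η * (M + 1 : ℕ)) (by positivity)
        (mul_le_mul_of_nonneg_left (by push_cast; linarith) hη.le)
      have h4 : η * ((M + 1 : ℕ) : ℝ) - η * M = η := by push_cast; ring
      rw [h4] at h3
      have h5 : γ (η * (M + 1 : ℕ)) ≤ Γ (η * (M + 1 : ℕ)) / η - Γ (η * M) / η := by
        rw [← sub_div, le_div_iff₀ hη]
        linarith
      have ih' := ih (abel c (fun n => γ (η * n)) A B hA hc (fun n => hγ0 _ (by positivity))
        (fun n => hγ _ _ (by positivity)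
          (mul_le_mul_of_nonneg_left (by push_cast; linarith) hη.le)) M)
      linarith
  have h3 : γ (η * (1 : ℕ)) ≤ L := by
    rw [← hL]
    exact hγ 0 _ le_rfl (by positivity)
  have h4 : Γ (η * M) / η ≤ K / η := by
    gcongr
    exact hK _ (by positivity)
  have h5 := mul_le_mul_of_nonneg_left (h2.trans h4) hB
  have h6 := mul_le_mul_of_nonneg_left h3 hA
  linarith

theorem exp2 {x : ℝ} (hx : 0 ≤ x) : 1 + x + x ^ 2 / 2 ≤ Real.exp x :=
  Real.quadratic_le_exp_of_nonneg hx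

theorem exp3 {x : ℝ} (hx : 0 ≤ x) : 1 + x + x ^ 2 / 2 + x ^ 3 / 6 ≤ Real.exp x := by
  have h := Real.sum_le_exp_of_nonneg hx 4
  simp only [Finset.sum_range_succ, Finset.range_zero, Finset.sum_empty, Nat.factorial] at h
  norm_num at h
  linarith

theorem exp_split (a b : ℝ) : Real.exp (-a) = Real.exp (-b) * Real.exp (b - a) := by
  rw [← Real.exp_add]
  congr 1
  ring

/-- the primitive of `z e^(-z)` -/
theorem lemA {a b : ℝ} (ha : 1 ≤ a) (hab : a ≤ b) :
    (b - a) * (b * Real.exp (-b)) ≤ (a + 1) * Real.exp (-a) - (b + 1) * Real.exp (-b) := by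
  rw [exp_split a b]
  have h1 := exp2 (sub_nonneg.2 hab)
  have h2 := Real.exp_pos (-b)
  have h3 : (b - a) * b + (b + 1) ≤ (a + 1) * Real.exp (b - a) := by
    have h4 : (a + 1) * (1 + (b - a) + (b - a) ^ 2 / 2) ≤ (a + 1) * Real.exp (b - a) :=
      mul_le_mul_of_nonneg_left h1 (by linarith)
    nlinarith [mul_nonneg (sub_nonneg.2 ha) (sq_nonneg (b - a))]
  nlinarith [mul_le_mul_of_nonneg_left h3 h2.le]

/-- the primitive of `z² e^(-z)` -/
theorem lemB {a b : ℝ} (ha : 2 ≤ a) (hab : a ≤ b) :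
    (b - a) * (b ^ 2 * Real.exp (-b)) ≤
      (a ^ 2 + 2 * a + 2) * Real.exp (-a) - (b ^ 2 + 2 * b + 2) * Real.exp (-b) := by
  rw [exp_split a b]
  have hu := sub_nonneg.2 hab
  have h1 := exp3 hu
  have h2 := Real.exp_pos (-b)
  have h3 : (b - a) * b ^ 2 + (b ^ 2 + 2 * b + 2) ≤ (a ^ 2 + 2 * a + 2) * Real.exp (b - a) := by
    have h4 : (a ^ 2 + 2 * a + 2) * (1 + (b - a) + (b - a) ^ 2 / 2 + (b - a) ^ 3 / 6) ≤
        (a ^ 2 + 2 * a + 2) * Real.exp (b - a) := mul_le_mul_of_nonneg_left h1 (by positivity)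
    refine le_trans ?_ h4
    obtain ⟨u, rfl⟩ : ∃ u, b = a + u := ⟨b - a, by ring⟩
    have hu' : 0 ≤ u := by linarith
    have e1 : a + u - a = u := by ring
    rw [e1]
    have h5 : 0 ≤ (a * (a - 2)) * u ^ 2 := by
      have : 0 ≤ a * (a - 2) := mul_nonneg (by linarith) (by linarith)
      positivity
    have h6 : 0 ≤ (a ^ 2 + 2 * a - 4) * u ^ 3 := by
      have : 0 ≤ a ^ 2 + 2 * a - 4 := by nlinarith
      positivity
    nlinarith
  nlinarith [mul_le_mul_of_nonneg_left h3 h2.le]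

theorem antA {a b : ℝ} (ha : 1 ≤ a) (hab : a ≤ b) :
    b * Real.exp (-b) ≤ a * Real.exp (-a) := by
  rw [exp_split a b]
  have h1 := Real.add_one_le_exp (b - a)
  have h2 := Real.exp_pos (-b)
  have h3 : b ≤ a * Real.exp (b - a) := by
    have h4 : a * (b - a + 1) ≤ a * Real.exp (b - a) := mul_le_mul_of_nonneg_left h1 (by linarith)
    nlinarith
  nlinarith [mul_le_mul_of_nonneg_left h3 h2.le]

theorem antB {a b : ℝ} (ha : 2 ≤ a) (hab : a ≤ b) :
    b ^ 2 * Real.exp (-b) ≤ a ^ 2 * Real.exp (-a) := by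
  rw [exp_split a b]
  have hu := sub_nonneg.2 hab
  have h1 := exp2 hu
  have h2 := Real.exp_pos (-b)
  have h3 : b ^ 2 ≤ a ^ 2 * Real.exp (b - a) := by
    have h4 : a ^ 2 * (1 + (b - a) + (b - a) ^ 2 / 2) ≤ a ^ 2 * Real.exp (b - a) :=
      mul_le_mul_of_nonneg_left h1 (by positivity)
    refine le_trans ?_ h4
    obtain ⟨u, rfl⟩ : ∃ u, b = a + u := ⟨b - a, by ring⟩
    have hu' : 0 ≤ u := by linarith
    have e1 : a + u - a = u := by ring
    rw [e1]
    have h5 : 0 ≤ (a * (a - 2)) * u := by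
      have : 0 ≤ a * (a - 2) := mul_nonneg (by linarith) (by linarith)
      positivity
    have h6 : 0 ≤ (a ^ 2 - 2) * u ^ 2 := by
      have : 0 ≤ a ^ 2 - 2 := by nlinarith
      positivity
    nlinarith
  nlinarith [mul_le_mul_of_nonneg_left h3 h2.le]

theorem maxA (z : ℝ) : z * Real.exp (-z) ≤ Real.exp (-1) := by
  have h1 := Real.add_one_le_exp (z - 1)
  rw [exp_split 1 z]
  have h2 := Real.exp_pos (-z)
  nlinarith [mul_le_mul_of_nonneg_left h1 h2.le]

theorem maxB {z : ℝ} (hz : 0 ≤ z) : z ^ 2 * Real.exp (-z) ≤ 4 * Real.exp (-2) := by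
  have h1 := maxA (z / 2)
  have h2 : (z / 2 * Real.exp (-(z / 2))) ^ 2 ≤ Real.exp (-1) ^ 2 :=
    pow_le_pow_left₀ (by positivity) h1 2
  have h3 : Real.exp (-1) ^ 2 = Real.exp (-2) := by
    rw [← Real.exp_nat_mul]; norm_num
  have h4 : Real.exp (-(z / 2)) ^ 2 = Real.exp (-z) := by
    rw [← Real.exp_nat_mul]; congr 1; push_cast; ring
  rw [mul_pow, h4, h3] at h2
  nlinarith

/-- the majorant of `z e^(-z)` -/
noncomputable def g2 (z : ℝ) : ℝ := if z ≤ 1 then Real.exp (-1) else z * Real.exp (-z)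

/-- its primitive -/
noncomputable def G2 (z : ℝ) : ℝ :=
  if z ≤ 1 then z * Real.exp (-1) else 3 * Real.exp (-1) - (z + 1) * Real.exp (-z)

/-- the majorant of `z² e^(-z)` -/
noncomputable def g3 (z : ℝ) : ℝ := if z ≤ 2 then 4 * Real.exp (-2) else z ^ 2 * Real.exp (-z)

/-- its primitive -/
noncomputable def G3 (z : ℝ) : ℝ :=
  if z ≤ 2 then 4 * Real.exp (-2) * z else
    18 * Real.exp (-2) - (z ^ 2 + 2 * z + 2) * Real.exp (-z)

theorem g2_prim (a b : ℝ) (ha : 0 ≤ a) (hab : a ≤ b) : (b - a) * g2 b ≤ G2 b - G2 a := by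
  unfold g2 G2
  have he := Real.exp_pos (-1)
  by_cases hb : b ≤ 1
  · have ha' : a ≤ 1 := hab.trans hb
    rw [if_pos hb, if_pos hb, if_pos ha']
    linarith
  · rw [if_neg hb, if_neg hb]
    push Not at hb
    by_cases ha' : a ≤ 1
    · rw [if_pos ha']
      have h1 := lemA le_rfl hb.le
      have h2 := maxA b
      have h3 : (1 - a) * (b * Real.exp (-b)) ≤ (1 - a) * Real.exp (-1) :=
        mul_le_mul_of_nonneg_left h2 (by linarith)
      linarith
    · rw [if_neg ha']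
      push Not at ha'
      have h1 := lemA ha'.le hab
      linarith

theorem g3_prim (a b : ℝ) (ha : 0 ≤ a) (hab : a ≤ b) : (b - a) * g3 b ≤ G3 b - G3 a := by
  unfold g3 G3
  have he := Real.exp_pos (-2)
  by_cases hb : b ≤ 2
  · have ha' : a ≤ 2 := hab.trans hb
    rw [if_pos hb, if_pos hb, if_pos ha']
    linarith
  · rw [if_neg hb, if_neg hb]
    push Not at hb
    by_cases ha' : a ≤ 2
    · rw [if_pos ha']
      have h1 := lemB le_rfl hb.le
      have h2 := maxB (z := b) (by linarith)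
      have h3 : (2 - a) * (b ^ 2 * Real.exp (-b)) ≤ (2 - a) * (4 * Real.exp (-2)) :=
        mul_le_mul_of_nonneg_left h2 (by linarith)
      linarith
    · rw [if_neg ha']
      push Not at ha'
      have h1 := lemB ha'.le hab
      linarith

theorem g2_anti (a b : ℝ) (ha : 0 ≤ a) (hab : a ≤ b) : g2 b ≤ g2 a := by
  unfold g2
  by_cases ha' : a ≤ 1
  · rw [if_pos ha']
    split_ifs
    · exact le_rfl
    · exact maxA b
  · have hb : ¬ b ≤ 1 := by push Not at ha' ⊢; linarith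
    rw [if_neg ha', if_neg hb]
    push Not at ha'
    exact antA ha'.le hab

theorem g3_anti (a b : ℝ) (ha : 0 ≤ a) (hab : a ≤ b) : g3 b ≤ g3 a := by
  unfold g3
  by_cases ha' : a ≤ 2
  · rw [if_pos ha']
    split_ifs
    · exact le_rfl
    · exact maxB (by linarith)
  · have hb : ¬ b ≤ 2 := by push Not at ha' ⊢; linarith
    rw [if_neg ha', if_neg hb]
    push Not at ha'
    exact antB ha'.le hab

theorem g2_nonneg (z : ℝ) (hz : 0 ≤ z) : 0 ≤ g2 z := by
  unfold g2; split_ifs <;> positivity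

theorem g3_nonneg (z : ℝ) (hz : 0 ≤ z) : 0 ≤ g3 z := by
  unfold g3; split_ifs <;> positivity

theorem G2_le (z : ℝ) (hz : 0 ≤ z) : G2 z ≤ 3 * Real.exp (-1) := by
  unfold G2
  have he := Real.exp_pos (-1)
  split_ifs with h
  · nlinarith
  · have : 0 ≤ (z + 1) * Real.exp (-z) := by positivity
    linarith

theorem G3_le (z : ℝ) (hz : 0 ≤ z) : G3 z ≤ 18 * Real.exp (-2) := by
  unfold G3
  have he := Real.exp_pos (-2)
  split_ifs with h
  · nlinarith
  · have : 0 ≤ (z ^ 2 + 2 * z + 2) * Real.exp (-z) := by positivity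
    linarith

theorem le_g2 (z : ℝ) : z * Real.exp (-z) ≤ g2 z := by
  unfold g2; split_ifs
  · exact maxA z
  · exact le_rfl

theorem le_g3 (z : ℝ) (hz : 0 ≤ z) : z ^ 2 * Real.exp (-z) ≤ g3 z := by
  unfold g3; split_ifs
  · exact maxB hz
  · exact le_rfl

/-- the tangent line bound for the partial sums -/
theorem partial_le (h : S_DIV) {y0 : ℝ} (hy0 : 20 ≤ y0) (k : ℕ) (hk : 1 ≤ k) :
    ∑ n ∈ Finset.Icc 1 k, dd n ^ 2 / (n : ℝ) ≤
      (Real.log y0 + 3) ^ 3 * (Real.log y0 + 3 - 4) / 24 +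
        (Real.log y0 + 3) ^ 3 / (6 * y0) * k := by
  have hk1 : (1 : ℝ) ≤ k := by exact_mod_cast hk
  have h1 := h k hk1
  rw [Nat.floor_natCast] at h1
  refine h1.trans ?_
  have h2 : 0 ≤ Real.log (k : ℝ) := Real.log_nonneg hk1
  have h3 : 0 ≤ Real.log y0 := Real.log_nonneg (by linarith)
  have h4 := tangent (u := Real.log k + 3) (u0 := Real.log y0 + 3) (by linarith) (by linarith)
  have h5 : Real.exp (Real.log k + 3 - (Real.log y0 + 3)) = k / y0 := by
    have : Real.log (k : ℝ) + 3 - (Real.log y0 + 3) = Real.log k - Real.log y0 := by ring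
    rw [this, Real.exp_sub, Real.exp_log (by linarith), Real.exp_log (by linarith)]
  rw [h5] at h4
  have h6 : (0 : ℝ) < y0 := by linarith
  have h7 : (Real.log y0 + 3) ^ 3 / (6 * y0) * k =
      (4 * (Real.log y0 + 3) ^ 3 * (k / y0)) / 24 := by
    field_simp
    ring
  rw [h7]
  linarith

theorem A_nonneg {y0 : ℝ} (hy0 : 20 ≤ y0) :
    0 ≤ (Real.log y0 + 3) ^ 3 * (Real.log y0 + 3 - 4) / 24 := by
  have h1 : 1 ≤ Real.log y0 := by
    rw [Real.le_log_iff_exp_le (by linarith)]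
    have := Real.exp_one_lt_d9
    linarith
  have h2 : 0 ≤ Real.log y0 + 3 - 4 := by linarith
  positivity

theorem B_nonneg {y0 : ℝ} (hy0 : 20 ≤ y0) :
    0 ≤ (Real.log y0 + 3) ^ 3 / (6 * y0) := by
  have h3 : 0 ≤ Real.log y0 := Real.log_nonneg (by linarith)
  positivity

/-- the value of the line at the point -/
theorem val_eq {y0 : ℝ} (hy0 : 20 ≤ y0) :
    (Real.log y0 + 3) ^ 3 * (Real.log y0 + 3 - 4) / 24 + (Real.log y0 + 3) ^ 3 / (6 * y0) * y0 =
      (Real.log y0 + 3) ^ 4 / 24 := by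
  have h6 : (0 : ℝ) < y0 := by linarith
  field_simp
  ring

end Lap

open Lap

theorem lap_all (h : S_DIV) : S_LAP := by
  intro η M hη hη20
  have h20 : 20 ≤ 1 / η := by
    rw [le_div_iff₀ hη]
    linarith
  have h20' : 20 ≤ 3 / η := by
    have : 3 / η = 3 * (1 / η) := by ring
    linarith
  have h20'' : 20 ≤ 9 / (2 * η) := by
    have : 9 / (2 * η) = 9 / 2 * (1 / η) := by field_simp
    linarith
  have hn0 : ∀ n ∈ Finset.Icc 1 M, (0 : ℝ) < n := by
    intro n hn
    rw [Finset.mem_Icc] at hn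
    exact_mod_cast hn.1
  have hexp1 : Real.exp (-1) = 1 / Real.exp 1 := by rw [Real.exp_neg, one_div]
  have hexp2 : Real.exp (-2) = 1 / Real.exp 1 ^ 2 := by
    rw [Real.exp_neg, one_div, ← Real.exp_nat_mul]; norm_num
  refine ⟨?_, ?_, ?_⟩
  · have h1 := weight (fun n => dd n ^ 2 / (n : ℝ)) _ _ η (A_nonneg h20) (B_nonneg h20) hη
      (fun k hk => partial_le h h20 k hk) (fun z => Real.exp (-z)) (fun z => 1 - Real.exp (-z)) 1 1
      (fun z _ => (Real.exp_pos _).le)
      (fun a b _ hab => Real.exp_le_exp.2 (by linarith)) (by simp) (by simp)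
      (fun z _ => by have := Real.exp_pos (-z); linarith)
      (fun a b _ hab => by
        have h1 := Real.add_one_le_exp (b - a)
        have h2 := Real.exp_pos (-b)
        have h3 := exp_split a b
        have h4 := mul_le_mul_of_nonneg_left h1 h2.le
        rw [h3]
        linarith) M
    rw [mul_one, val_eq h20] at h1
    refine le_trans (le_of_eq ?_) h1
    refine Finset.sum_congr rfl fun n hn => ?_
    ring
  · have h1 := weight (fun n => dd n ^ 2 / (n : ℝ)) _ _ η (A_nonneg h20') (B_nonneg h20') hη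
      (fun k hk => partial_le h h20' k hk) g2 G2 (3 * Real.exp (-1)) (Real.exp (-1))
      g2_nonneg g2_anti (by simp [g2]) (by simp [G2]) G2_le g2_prim M
    have h2 : ∑ n ∈ Finset.Icc 1 M, dd n ^ 2 * Real.exp (-(η * n)) ≤
        1 / η * ∑ n ∈ Finset.Icc 1 M, dd n ^ 2 / (n : ℝ) * g2 (η * n) := by
      rw [Finset.mul_sum]
      refine Finset.sum_le_sum fun n hn => ?_
      have hn' := hn0 n hn
      have h3 := le_g2 (η * n)
      have h4 : 0 ≤ 1 / η * (dd n ^ 2 / (n : ℝ)) := by positivity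
      have h5 := mul_le_mul_of_nonneg_left h3 h4
      calc dd n ^ 2 * Real.exp (-(η * n))
          = 1 / η * (dd n ^ 2 / (n : ℝ)) * (η * n * Real.exp (-(η * n))) := by field_simp
        _ ≤ 1 / η * (dd n ^ 2 / (n : ℝ)) * g2 (η * n) := h5
        _ = 1 / η * (dd n ^ 2 / (n : ℝ) * g2 (η * n)) := by ring
    refine h2.trans ?_
    have h3 := mul_le_mul_of_nonneg_left h1 (show 0 ≤ 1 / η by positivity)
    refine h3.trans (le_of_eq ?_)
    rw [← val_eq h20', hexp1]
    have := Real.exp_pos 1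
    field_simp
  · have h1 := weight (fun n => dd n ^ 2 / (n : ℝ)) _ _ η (A_nonneg h20'') (B_nonneg h20'') hη
      (fun k hk => partial_le h h20'' k hk) g3 G3 (18 * Real.exp (-2)) (4 * Real.exp (-2))
      g3_nonneg g3_anti (by simp [g3]) (by simp [G3]) G3_le g3_prim M
    have h2 : ∑ n ∈ Finset.Icc 1 M, dd n ^ 2 * Real.exp (-(η * n)) * n ≤
        1 / η ^ 2 * ∑ n ∈ Finset.Icc 1 M, dd n ^ 2 / (n : ℝ) * g3 (η * n) := by
      rw [Finset.mul_sum]
      refine Finset.sum_le_sum fun n hn => ?_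
      have hn' := hn0 n hn
      have h3 := le_g3 (η * n) (by positivity)
      have h4 : 0 ≤ 1 / η ^ 2 * (dd n ^ 2 / (n : ℝ)) := by positivity
      have h5 := mul_le_mul_of_nonneg_left h3 h4
      calc dd n ^ 2 * Real.exp (-(η * n)) * n
          = 1 / η ^ 2 * (dd n ^ 2 / (n : ℝ)) * ((η * n) ^ 2 * Real.exp (-(η * n))) := by field_simp
        _ ≤ 1 / η ^ 2 * (dd n ^ 2 / (n : ℝ)) * g3 (η * n) := h5
        _ = 1 / η ^ 2 * (dd n ^ 2 / (n : ℝ) * g3 (η * n)) := by ring
    refine h2.trans ?_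
    have h3 := mul_le_mul_of_nonneg_left h1 (show 0 ≤ 1 / η ^ 2 by positivity)
    refine h3.trans (le_of_eq ?_)
    rw [← val_eq h20'', hexp2]
    have := Real.exp_pos 1
    field_simp
    ring

end Pool.Agent.TH158.FM
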